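import Pool.Graph.R_pool_sql_team_seeded_ab47071d.TH629.CM.DefsLift
import Mathlib.RepresentationTheory.Basic

/-!
# Representations of finite groups in cycle classes modulo liftable ones: definitions
-/

open CategoryTheory AlgebraicGeometry

universe u v w

namespace Pool.Agent.Helper56.LiftUniv

open Pool.Agent.H914 Pool.Agent.H914.VarClass Pool.Agent.H914.VarClass.Obj Pool.Agent.W492.BB

/-- A finite-dimensional representation over `ℚ` of a finite group `Δ`. -/
structure FinRep where
  /-- the group -/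
  Δ : Type
  [group : Group Δ]
  [finite : Finite Δ]
  /-- the space -/
  E : Type
  [add : AddCommGroup E]
  [mod : Module ℚ E]
  [fin : Module.Finite ℚ E]
  /-- the representation -/
  ρ : Representation ℚ Δ E

attribute [instance] FinRep.group FinRep.finite FinRep.add FinRep.mod FinRep.fin

/-- The group `Δ` acts on the algebra `A` by the inverses of the endomorphisms `g d`. There is a
`Δ`-equivariant linear map from the space of the representation to `A` with values in `P`, and no
nonzero vector is mapped to an element of `N`. -/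
def EmbedsIn {A : Type v} [Ring A] [Algebra ℚ A] (F : FinRep) (g : F.Δ → (A →ₐ[ℚ] A))
    (P N : A → Prop) : Prop :=
  ∃ φ : F.E →ₗ[ℚ] A, (∀ e, P (φ e)) ∧ (∀ d e, φ (F.ρ d e) = g d⁻¹ (φ e)) ∧
    ∀ e, N (φ e) → e = 0

variable {k : Type u} [Field k] {𝒱 : VarClass k}

/-- The group `Δ` acts on the variety `X` from the left, by the morphisms `σ d`. -/
structure IsAction (X : 𝒱.Obj) {Δ : Type} [Group Δ] (σ : Δ → (X ⟶ X)) : Prop where
  one : σ 1 = 𝟙 X
  mul : ∀ d e : Δ, σ (d * e) = σ e ≫ σ d

variable (C : TheoryData.{u, v, 0} 𝒱 ℚ)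

/-- The morphism `q : X ⟶ Y` is invariant under the action `σ` of `Δ` on `X` and of degree
`κ ≠ 0`; so it is generically finite and surjective. -/
structure IsInvariantCover {X Y : 𝒱.Obj} {Δ : Type} (σ : Δ → (X ⟶ X)) (q : X ⟶ Y) (κ : ℚ) :
    Prop where
  comp : ∀ d : Δ, σ d ≫ q = q
  ne_zero : κ ≠ 0
  down : C.down q 1 = κ • (1 : C.A Y)

/-- The representation `F` of `Δ` occurs above the variety `Y` in the family `P` modulo the family
`N`: there are a variety `X` of dimension `n`, an action of `Δ` on `X`, a `Δ`-invariant morphism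
`q : X ⟶ Y` of degree `κ ≠ 0`, and a `Δ`-equivariant linear map from the space of `F` to the cycle
classes on `X` with values in `P` such that no nonzero vector is mapped to a class in `N`. -/
def OccursAbove (P N : ∀ X : 𝒱.Obj, C.A X → Prop) (Y : 𝒱.Obj) (n : ℕ) (F : FinRep) : Prop :=
  ∃ (X : 𝒱.Obj) (σ : F.Δ → (X ⟶ X)) (q : X ⟶ Y) (κ : ℚ), X.dim = n ∧ IsAction X σ ∧
    IsInvariantCover C σ q κ ∧ EmbedsIn F (fun d => C.pull (σ d)) (P X) (N X)

/-- Let `S` and `Y` be varieties of dimension `n` and `Δ` a finite group. There are a variety `X` of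
dimension `n` with an action of `Δ`, a `Δ`-invariant morphism `q : X ⟶ Y` of degree `κ' ≠ 0`, and
morphisms `p m d : X ⟶ S`, `m < M`, `d ∈ Δ`, of the same degree `κ ≠ 0`, such that the composition
of the action of `e` on `X` and of `p m d` is `p m (d * e)`, and a divisor class `a` on `S` such that
for different `(m, d)` and `(m', d')` the class `(p m d, p m' d')_* [X]` on `S × S` is a rational
multiple of `(a × S + S × a) ^ n`. (`X` is a `Δ`-invariant complete intersection in
`S^{M × Δ} × Y`.) -/
def HasInvariantIntersection (n : ℕ) (Y S : 𝒱.Obj) (Δ : Type) [Group Δ] (M : ℕ) : Prop :=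
  ∃ (X : 𝒱.Obj) (p : Fin M → Δ → (X ⟶ S)) (σ : Δ → (X ⟶ X)) (q : X ⟶ Y) (a : C.A S)
    (c κ κ' : ℚ), X.dim = n ∧ C.Deg 1 a ∧ κ ≠ 0 ∧
    (∀ m d, C.down (p m d) 1 = κ • (1 : C.A S)) ∧
    (∀ m d m' d', (m, d) ≠ (m', d') →
      C.down (Obj.lift (p m d) (p m' d')) 1 = c • (C.up (fst S S) a + C.up (snd S S) a) ^ n) ∧
    IsAction X σ ∧ (∀ e m d, σ e ≫ p m d = p m (d * e)) ∧ IsInvariantCover C σ q κ'

/-- All the complete intersections above exist. (True for smooth projective varieties over an
algebraically closed field, for `n ≥ 1`, by the theorem of Bertini.) -/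
def HasInvariantIntersections (n : ℕ) : Prop :=
  ∀ (Y S : 𝒱.Obj) (Δ : Type) [Group Δ] [Finite Δ] (M : ℕ), Y.dim = n → S.dim = n →
    HasInvariantIntersection C n Y S Δ M

end Pool.Agent.Helper56.LiftUniv
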