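import Pool.Graph.R_pool_sql_team_seeded_ab47071d.TH629.CM.Lift
import Pool.Graph.R_pool_sql_team_seeded_843ab51a.V11106.DB.Main
import Pool.Agent.Helper56.LiftUniv.Defs

/-!
# Representations of finite groups in cycle classes modulo liftable ones
-/

open CategoryTheory AlgebraicGeometry

universe u v w

namespace Pool.Agent.Helper56.LiftUniv

open Pool.Agent.H914 Pool.Agent.H914.VarClass Pool.Agent.H914.VarClass.Obj Pool.Agent.W492.BB
  Pool.Agent.W550.Corr Pool.Agent.TH133 Pool.Agent.Y148.BB Pool.Agent.V1157.KF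
  Pool.Agent.V1157.PO Pool.Agent.V11106.DB
open Pool.Agent.V1157.RC (push_pull_of)

variable {k : Type u} [Field k] {𝒱 : VarClass k} {C : TheoryData.{u, v, 0} 𝒱 ℚ}
  [hC : IsChowProj C] {n r : ℕ}

/-- The formal properties of the families `P` and `N`. -/
structure IsPair (C : TheoryData.{u, v, 0} 𝒱 ℚ) (n r : ℕ)
    (P N : ∀ X : 𝒱.Obj, Submodule ℚ (C.A X)) : Prop where
  num : ∀ {X : 𝒱.Obj}, X.dim = n → ∀ z ∈ P X, NumTrivial C r z
  pull : ∀ {X Y : 𝒱.Obj} (f : X ⟶ Y), X.dim = n → Y.dim = n → ∀ z ∈ P Y, C.up f z ∈ P X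
  push : ∀ {X Y : 𝒱.Obj} (f : X ⟶ Y), X.dim = n → Y.dim = n → ∀ z ∈ N X, C.down f z ∈ N Y

/-- If `P` is not contained in `N`, then all representations occur. -/
theorem occurs_of_not {P N : ∀ X : 𝒱.Obj, Submodule ℚ (C.A X)} (h : IsPair C n r P N)
    (hP : HasInvariantIntersections C n) {Y : 𝒱.Obj} (hY : Y.dim = n)
    (hne : ¬ ∀ X : 𝒱.Obj, X.dim = n → P X ≤ N X) (F : FinRep) :
    OccursAbove C (fun X z => z ∈ P X) (fun X z => z ∈ N X) Y n F := by
  classical
  have hex : ∃ (S : 𝒱.Obj) (t : C.A S), S.dim = n ∧ t ∈ P S ∧ t ∉ N S := by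
    by_contra hcon
    push Not at hcon
    exact hne fun X hX a ha => hcon X a hX ha
  obtain ⟨S, t, hS, ht, hnt⟩ := hex
  let b := Module.finBasis ℚ F.E
  obtain ⟨X, p, σ, q, a, c, κ, κ', e1, e2, e3, e4, e5, e6, e7, e8⟩ :=
    hP Y S F.Δ (Module.finrank ℚ F.E) hY hS
  have hfd : Fintype F.Δ := Fintype.ofFinite _
  have hpp : ∀ m d, C.push (p m d) (C.pull (p m d) t) = κ • t := fun m d =>
    push_pull_of (e4 m d) t
  have hpq : ∀ m d m' d', (m, d) ≠ (m', d') → C.push (p m' d') (C.pull (p m d) t) = 0 := by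
    intro m d m' d' hne'
    have hpw : Pw C n 2 (fun l => if l = 0 then p m d else p m' d') a c κ := by
      refine ⟨hS, e1, e2, e3, fun l _ => ?_, fun l hl l' hl' hll => ?_⟩
      · by_cases h0 : l = 0
        · rw [if_pos h0]
          exact e4 m d
        · rw [if_neg h0]
          exact e4 m' d'
      · by_cases h0 : l = 0
        · rw [if_pos h0, if_neg (by omega)]
          exact e5 _ _ _ _ hne'
        · rw [if_neg h0, if_pos (by omega)]
          exact e5 _ _ _ _ hne'.symm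
    exact push_pull_num hpw (i := 0) (j := 1) (by omega) (by omega) (by omega) (h.num hS t ht)
  let ι := Fin (Module.finrank ℚ F.E) × F.Δ
  let w : ι → C.A X := fun i => C.up (p i.1 i.2) t
  have hwP : ∀ i, w i ∈ P X := fun i => h.pull _ e1 hS t ht
  let φ : F.E →ₗ[ℚ] C.A X := ∑ i : ι, ((b.coord i.1).comp (F.ρ i.2)).smulRight (w i)
  have hφ : ∀ z, φ z = ∑ i : ι, (b.coord i.1 (F.ρ i.2 z)) • w i := by
    intro z
    simp [φ, LinearMap.sum_apply]
  have hw : ∀ (e : F.Δ) (i : ι), C.pull (σ e⁻¹) (w i) = w (i.1, i.2 * e⁻¹) := by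
    intro e i
    have h2 := C.pull_comp (σ e⁻¹) (p i.1 i.2) t
    rw [e7] at h2
    exact h2.symm
  refine ⟨X, σ, q, κ', e1, e6, e8, φ, ?_, ?_, ?_⟩
  · intro z
    rw [hφ]
    exact Submodule.sum_mem _ fun i _ => Submodule.smul_mem _ _ (hwP i)
  · intro e z
    change φ (F.ρ e z) = C.pull (σ e⁻¹) (φ z)
    rw [hφ z, map_sum]
    have h1 : ∀ i : ι, C.pull (σ e⁻¹) ((b.coord i.1 (F.ρ i.2 z)) • w i) =
        (b.coord i.1 (F.ρ i.2 z)) • w (i.1, i.2 * e⁻¹) := by
      intro i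
      rw [map_smul, hw]
    rw [Finset.sum_congr rfl fun i _ => h1 i, hφ]
    let f : ι ≃ ι := (Equiv.refl _).prodCongr (Equiv.mulRight e⁻¹)
    have hf : ∀ i, f i = (i.1, i.2 * e⁻¹) := fun i => rfl
    rw [← Equiv.sum_comp f]
    refine Finset.sum_congr rfl fun i _ => ?_
    rw [hf i]
    have h3 : F.ρ (i.2 * e⁻¹) (F.ρ e z) = F.ρ i.2 z := by
      have h4 := congrArg (fun g : F.E →ₗ[ℚ] F.E => g z) (map_mul F.ρ (i.2 * e⁻¹) e)
      rw [inv_mul_cancel_right] at h4
      exact h4.symm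
    exact congrArg (fun y => b.coord i.1 y • w (i.1, i.2 * e⁻¹)) h3
  · intro z hz
    have key : ∀ m, b.coord m z = 0 := by
      intro m
      by_contra hcon
      let i₀ : ι := (m, 1)
      have h1 : C.push (p i₀.1 i₀.2) (φ z) ∈ N S := h.push (p i₀.1 i₀.2) e1 hS _ hz
      rw [hφ, map_sum, ← Finset.add_sum_erase _ _ (Finset.mem_univ i₀)] at h1
      have h2 : (∑ i ∈ Finset.univ.erase i₀, C.push (p i₀.1 i₀.2)
          ((b.coord i.1 (F.ρ i.2 z)) • w i)) = 0 := by
        refine Finset.sum_eq_zero fun i hi => ?_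
        have hne' : (i.1, i.2) ≠ (i₀.1, i₀.2) := (Finset.mem_erase.1 hi).1
        have h3 : C.push (p i₀.1 i₀.2) (w i) = 0 := hpq _ _ _ _ hne'
        rw [map_smul, h3, smul_zero]
      rw [h2, add_zero, map_smul] at h1
      have h5 : b.coord i₀.1 (F.ρ i₀.2 z) = b.coord m z := by
        have h6 : F.ρ (1 : F.Δ) z = z :=
          congrArg (fun g : F.E →ₗ[ℚ] F.E => g z) (map_one F.ρ)
        exact congrArg (b.coord m) h6
      rw [h5] at h1
      have h4 := (Submodule.smul_mem_iff _ hcon).1 h1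
      have h7 : C.push (p i₀.1 i₀.2) (w i₀) = κ • t := hpp _ _
      rw [h7] at h4
      exact hnt ((Submodule.smul_mem_iff _ e3).1 h4)
    exact b.ext_elem fun m => by
      have := key m
      rw [b.coord_apply] at this
      rw [this, map_zero]
      rfl

omit hC in
/-- If `P` is contained in `N` then the trivial representation does not occur. -/
theorem not_occurs {P N : ∀ X : 𝒱.Obj, C.A X → Prop}
    (h : ∀ X : 𝒱.Obj, X.dim = n → ∀ z, P X z → N X z) (Y : 𝒱.Obj) :
    ¬ OccursAbove C P N Y n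
      { Δ := Unit, E := ℚ, ρ := Representation.trivial ℚ Unit ℚ } := by
  rintro ⟨X, σ, q, κ, h1, h2, h3, φ, h4, h5, h6⟩
  exact one_ne_zero (h6 1 (h X h1 _ (h4 1)))

section lift

open Pool.Agent.TH629.CM.Th

variable {K : Type w} [Field K] {H : WeilTheoryData.{u, v, w} C K} [hH : IsWeilProj H]
  {M : Models C}

lemma isPair_lift (hM : M.IsGood H) :
    IsPair C n r (fun X => homTriv H X r) (fun X => liftSub hM X) where
  num {X} hX z hz := by
    refine ⟨hz.1, fun y hy => hasDegree_zero_of_cl (H := H) ?_ ?_⟩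
    · have h1 : C.Deg ((r : ℤ) + ((X.dim : ℤ) - r)) (C.mul z y) := C.mul_mem hz.1 hy
      rwa [add_sub_cancel] at h1
    · have h1 : H.cl (C.mul z y) = H.cl z * H.cl y := map_mul H.cl z y
      have h2 : H.cl z = 0 := hz.2
      rw [h1, h2, zero_mul]
  pull {X Y} f hX hY z hz := by
    refine ⟨C.pull_mem f hz.1, ?_⟩
    have h1 : H.cl (C.up f z) = H.pull f (H.cl z) := H.cl_pull f z
    have h2 : H.cl z = 0 := hz.2
    have h3 : H.cl (C.up f z) = 0 := by rw [h1, h2, map_zero]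
    exact h3
  push {X Y} f hX hY z hz := by
    have h1 : C.down f z = C.act (C.graph f) z := (C.act_graph f z).symm
    rw [h1]
    exact ⟨Pool.Agent.TH133.cl_act_zero hz.1, liftable_act hM hz.1 hz.2 _⟩

lemma lifting_iff_liftable (hM : M.IsGood H) :
    LiftingHolds M H r n ↔
      ∀ X : 𝒱.Obj, X.dim = n → homTriv H X r ≤ liftSub hM X := by
  rw [liftingHolds_iff hM]
  constructor
  · intro h X hX z hz
    exact (toQ_eq_zero hM).1 (h X hX _ ⟨z, hz, rfl⟩)
  · rintro h X hX _ ⟨z, hz, rfl⟩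
    exact (toQ_eq_zero hM).2 (h X hX hz)

/-- **The law for orthogonal lifts.** -/
theorem lifting_law (hM : M.IsGood H) (hP : HasInvariantIntersections C n) {Y : 𝒱.Obj}
    (hY : Y.dim = n) :
    LiftingHolds M H r n ↔ ∃ F : FinRep,
      ¬ OccursAbove C (fun X z => z ∈ homTriv H X r) (fun _ z => M.Liftable z) Y n F := by
  rw [lifting_iff_liftable hM]
  constructor
  · intro h
    exact ⟨_, not_occurs (fun X hX z hz => (h X hX hz).2) Y⟩
  · rintro ⟨F, hF⟩
    by_contra hne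
    obtain ⟨X, σ, q, κ, h1, h2, h3, φ, h4, h5, h6⟩ :=
      occurs_of_not (isPair_lift hM) hP hY hne F
    exact hF ⟨X, σ, q, κ, h1, h2, h3, φ, h4, h5, fun e he => h6 e ⟨(h4 e).2, he⟩⟩

end lift

end Pool.Agent.Helper56.LiftUniv
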